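import Pool.Agent.helper45.BR.Spec

set_option autoImplicit false

open Complex Metric Set Filter Topology MeasureTheory MPS Pool.Agent.helper98.ILF
  Pool.Agent.helper16.Multibrot

noncomputable section

namespace BR

theorem BAS_hasDeriv (n : ℕ) (c z : ℂ) : HasDerivAt (fc n c) (fd n z) z := by
  have h := (hasDerivAt_pow n z).add_const c
  exact h

theorem BAS_int {n : ℕ} (hn : 2 ≤ n) (c : ℂ) (z : ℂ) :
    z ∈ interior (filled n c) ↔ fc n c z ∈ interior (filled n c) := by
  have h := (isOpenMap_pow hn c).preimage_interior_eq_interior_preimage (by fun_prop) (filled n c)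
  rw [preimage_filled hn] at h
  constructor
  · intro hz
    rw [← h] at hz
    exact hz
  · intro hz
    rw [← h]
    exact hz

theorem BAS_iter (n : ℕ) (c : ℂ) (z : ℂ) (k : ℕ) :
    HasDerivAt ((fc n c)^[k]) (∏ j ∈ Finset.range k, fd n ((fc n c)^[j] z)) z := by
  induction k with
  | zero => simpa using hasDerivAt_id z
  | succ k ih =>
    rw [Finset.prod_range_succ, mul_comm, Function.iterate_succ']
    exact (BAS_hasDeriv n c _).comp z ih

theorem BAS : BAS_stmt := by
  intro n c hn hc
  refine ⟨?_, ?_, fun z => BAS_int hn c z, fun k z => (BAS_iter n c z k).deriv, ?_⟩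
  · intro z hz
    rw [mem_ball_zero_iff]
    by_contra hlt
    rw [not_lt] at hlt
    have h1 := hz 1
    simp only [Function.iterate_one] at h1
    have h2 : ‖z‖ ^ 2 ≤ ‖z‖ ^ n := pow_le_pow_right₀ (by linarith) hn
    have h3 : ‖z ^ n‖ - ‖c‖ ≤ ‖z ^ n + c‖ := by
      have := norm_sub_le (z ^ n + c) c
      rw [add_sub_cancel_right] at this
      linarith
    rw [norm_pow] at h3
    nlinarith [norm_nonneg c]
  · intro z k hz m
    have := hz (m + k)
    rw [Function.iterate_add_apply] at this
    exact this
  · intro z ω hω hz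
    rw [BAS_int hn]
    rw [BAS_int hn] at hz
    have : fc n c (ω * z) = fc n c z := by
      simp only [fc]
      rw [mul_pow, hω, one_mul]
    rw [this]
    exact hz

end BR
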